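import Mathlib
set_option autoImplicit false

namespace Pool.Agent.Results.MP_fbd18f_co.NearLinear

/-! ### A square-free word over four letters (from the Thue–Morse word) -/

/-- The Thue–Morse word. -/
def tm (n : ℕ) : Bool :=
  if h : n = 0 then false else xor (decide (n % 2 = 1)) (tm (n / 2))
termination_by n
decreasing_by exact Nat.div_lt_self (Nat.pos_of_ne_zero h) (by norm_num)

lemma tm_even (n : ℕ) : tm (2 * n) = tm n := by
  rcases Nat.eq_zero_or_pos n with h | h
  · subst h; rfl
  · rw [tm, dif_neg (by omega)]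
    have h1 : 2 * n % 2 = 0 := by omega
    have h2 : 2 * n / 2 = n := by omega
    rw [h1, h2]; simp

lemma tm_odd (n : ℕ) : tm (2 * n + 1) = !tm n := by
  rw [tm, dif_neg (by omega)]
  have h1 : (2 * n + 1) % 2 = 1 := by omega
  have h2 : (2 * n + 1) / 2 = n := by omega
  rw [h1, h2]; simp

lemma tm_pair (n : ℕ) : tm (2 * n) ≠ tm (2 * n + 1) := by
  rw [tm_even, tm_odd]; cases tm n <;> simp

lemma tm_cube (p : ℕ) (h1 : tm p = tm (p + 1)) (h2 : tm (p + 1) = tm (p + 2)) : False := by
  rcases Nat.even_or_odd' p with ⟨q, hq | hq⟩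
  · subst hq; exact tm_pair q h1
  · subst hq
    have := tm_pair (q + 1)
    rw [show 2 * (q + 1) = 2 * q + 1 + 1 by ring] at this
    exact this h2

lemma tm_overlap : ∀ d, 0 < d → ∀ p, (∀ j, j ≤ d → tm (p + j) = tm (p + d + j)) → False := by
  intro d
  induction d using Nat.strong_induction_on with
  | _ d ih =>
    intro hd p h
    rcases Nat.even_or_odd' d with ⟨e, he | he⟩
    · subst he
      rcases Nat.even_or_odd' p with ⟨q, hq | hq⟩
      · subst hq
        refine ih e (by omega) (by omega) q ?_
        intro j hj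
        have := h (2 * j) (by omega)
        rw [show 2 * q + 2 * j = 2 * (q + j) by ring,
          show 2 * q + 2 * e + 2 * j = 2 * (q + e + j) by ring, tm_even, tm_even] at this
        exact this
      · subst hq
        refine ih e (by omega) (by omega) q ?_
        intro j hj
        have := h (2 * j) (by omega)
        rw [show 2 * q + 1 + 2 * j = 2 * (q + j) + 1 by ring,
          show 2 * q + 1 + 2 * e + 2 * j = 2 * (q + e + j) + 1 by ring, tm_odd, tm_odd] at this
        revert this
        cases tm (q + j) <;> cases tm (q + e + j) <;> simp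
    · rcases Nat.eq_zero_or_pos e with h0 | h0
      · subst h0
        have h1 := h 0 (by omega)
        have h2 := h 1 (by omega)
        simp only [mul_zero, Nat.zero_add] at he
        subst he
        exact tm_cube p (by simpa using h1) (by simpa [Nat.add_assoc] using h2)
      · have alt : ∀ x, p ≤ x → x < p + d + d → tm x ≠ tm (x + 1) := by
          intro x hx1 hx2
          rcases Nat.even_or_odd' x with ⟨y, hy | hy⟩
          · subst hy; exact tm_pair y
          · by_cases hx3 : x < p + d
            · have e1 := h (x - p) (by omega)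
              have e2 := h (x - p + 1) (by omega)
              rw [show p + (x - p) = x by omega, show p + d + (x - p) = x + d by omega] at e1
              rw [show p + (x - p + 1) = x + 1 by omega,
                show p + d + (x - p + 1) = x + d + 1 by omega] at e2
              rw [e1, e2]
              have := tm_pair (y + e + 1)
              rw [show 2 * (y + e + 1) = x + d by omega] at this
              exact this
            · have e1 := h (x - d - p) (by omega)
              have e2 := h (x - d - p + 1) (by omega)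
              rw [show p + (x - d - p) = x - d by omega, show p + d + (x - d - p) = x by omega] at e1
              rw [show p + (x - d - p + 1) = x - d + 1 by omega,
                show p + d + (x - d - p + 1) = x + 1 by omega] at e2
              rw [← e1, ← e2]
              have := tm_pair (y - e)
              rw [show 2 * (y - e) = x - d by omega] at this
              exact this
        have key : ∀ n, p ≤ 2 * n → 2 * n ≤ p + 1 → False := by
          intro n hn1 hn2
          have a0 := alt (2 * n) (by omega) (by omega)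
          have a1 := alt (2 * n + 1) (by omega) (by omega)
          have a2 := alt (2 * n + 2) (by omega) (by omega)
          have a3 := alt (2 * n + 3) (by omega) (by omega)
          have b0 : tm (2 * n) = tm (2 * n + 2) := by
            revert a0 a1
            cases tm (2 * n) <;> cases tm (2 * n + 1) <;> cases tm (2 * n + 2) <;> simp_all
          have b1 : tm (2 * n + 2) = tm (2 * n + 4) := by
            revert a2 a3
            cases tm (2 * n + 2) <;> cases tm (2 * n + 3) <;> cases tm (2 * n + 4) <;> simp_all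
          rw [show 2 * n + 2 = 2 * (n + 1) by ring, tm_even, tm_even] at b0
          rw [show 2 * n + 2 = 2 * (n + 1) by ring, show 2 * n + 4 = 2 * (n + 2) by ring,
            tm_even, tm_even] at b1
          exact tm_cube n b0 b1
        rcases Nat.even_or_odd' p with ⟨q, hq | hq⟩
        · exact key q (by omega) (by omega)
        · exact key (q + 1) (by omega) (by omega)

/-- A square-free word over `Bool × Bool`. -/
def wd (n : ℕ) : Bool × Bool := (tm n, tm (n + 1))

lemma wd_square {d p : ℕ} (hd : 0 < d) (h : ∀ j, j < d → wd (p + j) = wd (p + d + j)) : False := by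
  refine tm_overlap d hd p ?_
  intro j hj
  rcases Nat.lt_or_ge j d with h1 | h1
  · exact congrArg Prod.fst (h j h1)
  · have hj' : j = d := by omega
    have h2 := congrArg Prod.snd (h (d - 1) (by omega))
    simp only [wd] at h2
    rw [show p + (d - 1) + 1 = p + d by omega, show p + d + (d - 1) + 1 = p + d + d by omega] at h2
    rw [hj']; exact h2

/-! ### Walks on `ℕ` -/

/-- one step of a lazy walk -/
def Step (x y : ℕ) : Prop := y ≤ x + 1 ∧ x ≤ y + 1

lemma walk_ivt (x : ℕ → ℕ) (p : ℕ) : ∀ q, p ≤ q → (∀ k, p ≤ k → k < q → Step (x k) (x (k + 1))) →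
    ∀ v, ((x p ≤ v ∧ v ≤ x q) ∨ (x q ≤ v ∧ v ≤ x p)) → ∃ k, p ≤ k ∧ k ≤ q ∧ x k = v := by
  intro q hpq
  induction q, hpq using Nat.le_induction with
  | base => intro _ v hv; exact ⟨p, le_rfl, le_rfl, by omega⟩
  | succ q hq ih =>
    intro hs v hv
    have hst := hs q hq (by omega)
    unfold Step at hst
    by_cases hvq : v = x (q + 1)
    · exact ⟨q + 1, by omega, le_rfl, hvq.symm⟩
    · obtain ⟨k, h1, h2, h3⟩ := ih (fun k h1 h2 => hs k h1 (by omega)) v (by omega)
      exact ⟨k, h1, by omega, h3⟩

lemma walk_shift (x y : ℕ → ℕ) (p : ℕ) : ∀ q, p ≤ q →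
    (∀ k, p ≤ k → k < q → Step (x k) (x (k + 1))) → (∀ k, p ≤ k → k < q → Step (y k) (y (k + 1))) →
    (∀ k, p ≤ k → k ≤ q → x k % 3 = y k % 3) → x q + y p = y q + x p := by
  intro q hpq
  induction q, hpq using Nat.le_induction with
  | base => intro _ _ _; omega
  | succ q hq ih =>
    intro h1 h2 h3
    have e := ih (fun k a b => h1 k a (by omega)) (fun k a b => h2 k a (by omega))
      (fun k a b => h3 k a (by omega))
    have s1 := h1 q hq (by omega)
    have s2 := h2 q hq (by omega)
    have m1 := h3 q hq (by omega)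
    have m2 := h3 (q + 1) (by omega) le_rfl
    unfold Step at s1 s2
    omega

/-- In a lazy walk of length `2t` whose two halves carry the same letters (word `wd` together with
the position mod 3) the two halves start at the same point. -/
lemma walk_word (t : ℕ) (ht : 0 < t) (x : ℕ → ℕ) (hs : ∀ k, k + 1 < 2 * t → Step (x k) (x (k + 1)))
    (h3 : ∀ k, k < t → x k % 3 = x (k + t) % 3) (hw : ∀ k, k < t → wd (x k) = wd (x (k + t))) :
    x 0 = x t := by
  have sh : ∀ k, k < t → x k + x t = x (k + t) + x 0 := by
    intro k hk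
    have := walk_shift x (fun k => x (k + t)) 0 k (by omega) (fun j _ hj => hs j (by omega))
      (fun j _ hj => by
        have := hs (j + t) (by omega)
        rw [show j + t + 1 = j + 1 + t by ring] at this
        exact this) (fun j _ hj => h3 j (by omega))
    simpa using this
  have hj := hs (t - 1) (by omega)
  rw [show t - 1 + 1 = t by omega] at hj
  unfold Step at hj
  by_contra hne
  rcases Nat.lt_or_gt_of_ne hne with hlt | hgt
  · -- moving right, `d = x t - x 0`
    refine wd_square (d := x t - x 0) (p := x 0) (by omega) ?_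
    intro j hj'
    obtain ⟨k, _, hk2, hk3⟩ := walk_ivt x 0 (t - 1) (by omega) (fun k _ hk => hs k (by omega))
      (x 0 + j) (by omega)
    have e1 := sh k (by omega)
    have e2 := hw k (by omega)
    rw [hk3] at e2
    rw [e2]
    congr 1
    omega
  · have hv0 : x 0 - x t ≤ x t + 1 := by
      obtain ⟨k, _, hk2, hk3⟩ := walk_ivt x 0 (t - 1) (by omega) (fun k _ hk => hs k (by omega))
        (x t + 1) (by omega)
      have e1 := sh k (by omega)
      omega
    refine wd_square (d := x 0 - x t) (p := x t + 1 - (x 0 - x t)) (by omega) ?_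
    intro j hj'
    obtain ⟨k, _, hk2, hk3⟩ := walk_ivt x 0 (t - 1) (by omega) (fun k _ hk => hs k (by omega))
      (x t + 1 + j) (by omega)
    have e1 := sh k (by omega)
    have e2 := hw k (by omega)
    rw [hk3] at e2
    rw [show x t + 1 - (x 0 - x t) + (x 0 - x t) + j = x t + 1 + j by omega, e2]
    congr 1
    omega

/-- `c` is a strong colouring (of the elements in `dom`, for the relation `near`): every sequence
of length `2t` of elements whose consecutive terms are near and whose two halves have the same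
colours has a term that agrees with its partner in the other half. -/
def Strong {X C : Type} (dom : X → Prop) (near : X → X → Prop) (c : X → C) : Prop :=
  ∀ (t : ℕ) (x : ℕ → X), 0 < t → (∀ i, i < 2 * t → dom (x i)) →
    (∀ i, i + 1 < 2 * t → near (x i) (x (i + 1))) → (∀ i, i < t → c (x i) = c (x (i + t))) →
    ∃ i, i < t ∧ x i = x (i + t)

/-- Passing to a subsequence. -/
lemma Strong.extract {X C : Type} {dom : X → Prop} {near : X → X → Prop} {c : X → C}
    (hs : Strong dom near c) (t : ℕ) (ret : ℕ → Prop) (z : ℕ → X)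
    (hret : ∀ k, k < t → (ret k ↔ ret (k + t))) (hne : ∃ k, k < t ∧ ret k)
    (hdom : ∀ k, k < 2 * t → ret k → dom (z k))
    (hnear : ∀ k k', k < k' → k' < 2 * t → ret k → ret k' → (∀ j, k < j → j < k' → ¬ ret j) →
      near (z k) (z k'))
    (hc : ∀ k, k < t → ret k → c (z k) = c (z (k + t))) :
    ∃ k, k < t ∧ ret k ∧ z k = z (k + t) := by
  classical
  -- extend `ret` so that it is infinite
  set p : ℕ → Prop := fun k => ret k ∨ 2 * t ≤ k with hp
  have hinf : (Set.ofPred p).Infinite := by
    refine Set.infinite_of_not_bddAbove ?_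
    rintro ⟨M, hM⟩
    have : M + 2 * t + 1 ≤ M := hM (show p (M + 2 * t + 1) from Or.inr (by omega))
    omega
  set t' := Nat.count p t with ht'
  have hper : ∀ k, k ≤ t → Nat.count p (t + k) = t' + Nat.count p k := by
    intro k hk
    rw [Nat.count_add]
    congr 1
    have : ∀ n, n ≤ t → Nat.count (fun k => p (t + k)) n = Nat.count p n := by
      intro n
      induction n with
      | zero => intro _; simp
      | succ n ih =>
        intro hn
        rw [Nat.count_succ, Nat.count_succ, ih (by omega)]
        congr 1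
        have h1 := hret n (by omega)
        have h2 : p (t + n) ↔ p n := by
          simp only [hp]
          rw [show t + n = n + t by ring]
          constructor
          · rintro (h | h)
            · exact Or.inl (h1.2 h)
            · omega
          · rintro (h | h)
            · exact Or.inl (h1.1 h)
            · omega
        simp only [h2]
    exact this k hk
  have hcount2 : Nat.count p (2 * t) = 2 * t' := by
    have := hper t le_rfl
    rw [show t + t = 2 * t by ring] at this
    omega
  have ht'pos : 0 < t' := by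
    obtain ⟨k, hk, hk2⟩ := hne
    have h1 : Nat.count p (k + 1) ≤ t' := Nat.count_monotone p (by omega)
    rw [Nat.count_succ] at h1
    have : p k := Or.inl hk2
    simp only [this, if_true] at h1
    omega
  have hlt : ∀ i, i < t' → Nat.nth p i < t := by
    intro i hi
    exact Nat.nth_lt_of_lt_count hi
  have hlt2 : ∀ i, i < 2 * t' → Nat.nth p i < 2 * t := by
    intro i hi
    exact Nat.nth_lt_of_lt_count (by omega)
  have hmem : ∀ i, i < 2 * t' → ret (Nat.nth p i) := by
    intro i hi
    rcases Nat.nth_mem_of_infinite hinf i with h | h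
    · exact h
    · have := hlt2 i hi; omega
  have hshift : ∀ i, i < t' → Nat.nth p (i + t') = Nat.nth p i + t := by
    intro i hi
    have h1 : p (Nat.nth p i + t) := Or.inl ((hret _ (hlt i hi)).1 (hmem i (by omega)))
    have h2 := Nat.nth_count h1
    have h3 := hper (Nat.nth p i) (hlt i hi).le
    rw [show t + Nat.nth p i = Nat.nth p i + t by ring, Nat.count_nth_of_infinite hinf] at h3
    rw [h3, show t' + i = i + t' by ring] at h2
    exact h2
  obtain ⟨i, hi, hi2⟩ := hs t' (fun i => z (Nat.nth p i)) ht'pos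
    (fun i hi => hdom _ (hlt2 i hi) (hmem i hi))
    (fun i hi => by
      refine hnear _ _ (Nat.nth_strictMono hinf (Nat.lt_succ_self i)) (hlt2 _ hi)
        (hmem i (by omega)) (hmem _ hi) ?_
      intro j hj1 hj2 hj3
      have hpj : p j := Or.inl hj3
      have e1 : Nat.nth p (Nat.count p j) = j := Nat.nth_count hpj
      rw [← e1] at hj1 hj2
      have a1 := (Nat.nth_strictMono hinf).lt_iff_lt.1 hj1
      have a2 := (Nat.nth_strictMono hinf).lt_iff_lt.1 hj2
      omega)
    (fun i hi => by
      have := hc _ (hlt i hi) (hmem i (by omega))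
      simp only [hshift i hi]
      exact this)
  refine ⟨Nat.nth p i, hlt i hi, hmem i (by omega), ?_⟩
  simp only [hshift i hi] at hi2
  exact hi2

section windows
variable {V : Type}

open Classical in
/-- number of intervals `[a v, b v]`, `v ∈ S`, that start at or before `x` and end at or after `y` -/
noncomputable def cnt (S : Finset V) (a b : V → ℕ) (x y : ℕ) : ℕ :=
  (S.filter (fun v => a v ≤ x ∧ y ≤ b v)).card

/-- The greedy windows `[u i, u i + D]`. -/
lemma exists_windows (S : Finset V) (a b : V → ℕ) (D s' : ℕ) :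
    ∃ u A B : ℕ → ℕ, (∀ x i, A x ≤ i ↔ x ≤ u i + D) ∧ (∀ x i, i ≤ B x ↔ u i ≤ x) ∧
      (∀ i, u i + D < u (i + 1)) ∧ (∀ i, cnt S a b (u i + D) (u (i + 1)) ≤ s') ∧
      (∀ i y, u i + D < y → y < u (i + 1) → s' < cnt S a b (u i + D) y) := by
  classical
  have hex : ∀ x, ∃ y, x < y ∧ cnt S a b x y ≤ s' := by
    intro x
    refine ⟨x + 1 + S.sup b, by omega, ?_⟩
    have : S.filter (fun v => a v ≤ x ∧ x + 1 + S.sup b ≤ b v) = ∅ := by
      refine Finset.filter_eq_empty_iff.2 ?_
      intro v hv h
      have := Finset.le_sup (f := b) hv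
      omega
    unfold cnt
    rw [this]; simp
  let nx : ℕ → ℕ := fun x => Nat.find (hex x)
  let u : ℕ → ℕ := fun i => Nat.rec (motive := fun _ => ℕ) 0 (fun _ r => nx (r + D)) i
  have u0 : u 0 = 0 := rfl
  have us : ∀ i, u (i + 1) = nx (u i + D) := fun i => rfl
  have hu : ∀ i, u i + D < u (i + 1) := by
    intro i
    rw [us]
    exact (Nat.find_spec (hex (u i + D))).1
  have hmono : StrictMono u := strictMono_nat_of_lt_succ (fun i => by have := hu i; omega)
  have hge : ∀ i, i ≤ u i := fun i => hmono.id_le i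
  have hexA : ∀ x, ∃ i, x ≤ u i + D := fun x => ⟨x, by have := hge x; omega⟩
  let Bf : ℕ → ℕ := fun x => Nat.findGreatest (fun i : ℕ => u i ≤ x) x
  refine ⟨u, fun x => Nat.find (hexA x), Bf, ?_, ?_, hu, ?_, ?_⟩
  · intro x i
    constructor
    · intro h
      have h1 : x ≤ u (Nat.find (hexA x)) + D := Nat.find_spec (hexA x)
      have h2 : u (Nat.find (hexA x)) ≤ u i := hmono.monotone h
      omega
    · intro h
      exact Nat.find_min' _ h
  · intro x i
    constructor
    · intro h
      have h0 : u (Bf x) ≤ x :=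
        Nat.findGreatest_spec (P := fun i => u i ≤ x) (m := 0) (Nat.zero_le _) (by simp [u0])
      exact (hmono.monotone h).trans h0
    · intro h
      exact Nat.le_findGreatest ((hge i).trans h) h
  · intro i
    rw [us]
    exact (Nat.find_spec (hex (u i + D))).2
  · intro i y h1 h2
    rw [us] at h2
    have := Nat.find_min (hex (u i + D)) h2
    by_contra h3
    exact this ⟨h1, by omega⟩

end windows

lemma exists_slot {V : Type} (T : Finset V) (K : ℕ) (hK : 0 < K) (h : T.card ≤ K) :
    ∃ e : V → Fin K, ∀ v ∈ T, ∀ w ∈ T, e v = e w → v = w := by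
  classical
  refine ⟨fun v => if hv : v ∈ T then Fin.castLE h (T.equivFin ⟨v, hv⟩) else ⟨0, hK⟩, ?_⟩
  intro v hv w hw he
  simp only [hv, hw, dif_pos] at he
  have := T.equivFin.injective (Fin.castLE_injective h he)
  exact congrArg Subtype.val this


/-! ### Events in a half of a walk -/

/-- `k` is an event: an element of a stretch without `L`-elements that visits the whole block of
`m` consecutive positions starting at the position of `k`. -/
def Event (t m : ℕ) (pos : ℕ → ℕ) (L : ℕ → Prop) (k : ℕ) : Prop :=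
  ¬ L k ∧ pos k % m = 0 ∧ ∀ e, e < m →
    ∃ k', k' < t ∧ (∀ j, min k k' ≤ j → j ≤ max k k' → ¬ L j) ∧ pos k' = pos k + e

lemma stretch (t m : ℕ) (hm : 0 < m) (pos : ℕ → ℕ) (L : ℕ → Prop)
    (hstep : ∀ j, j + 1 < t → ¬ L j → ¬ L (j + 1) → Step (pos j) (pos (j + 1)))
    (p q : ℕ) (hpq : p ≤ q) (hq : q < t) (hL : ∀ j, p ≤ j → j ≤ q → ¬ L j)
    (hE : ∀ j, p ≤ j → j ≤ q → ¬ Event t m pos L j) :
    pos q + 2 ≤ pos p + 2 * m ∧ pos p + 2 ≤ pos q + 2 * m := by
  by_contra hcon
  have hw : ∀ k, p ≤ k → k < q → Step (pos k) (pos (k + 1)) := fun k h1 h2 =>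
    hstep k (by omega) (hL k h1 (by omega)) (hL (k + 1) (by omega) (by omega))
  set l := min (pos p) (pos q) with hl
  set h := max (pos p) (pos q) with hh
  have hlh : l + 2 * m ≤ h + 1 := by omega
  set J := m * ((l + m - 1) / m) with hJ
  have hJ1 : J ≤ l + m - 1 := Nat.mul_div_le _ _
  have hJ2 : l ≤ J := by
    have h1 := Nat.div_add_mod (l + m - 1) m
    have h2 := Nat.mod_lt (l + m - 1) hm
    omega
  have hvis : ∀ v, l ≤ v → v ≤ h → ∃ k, p ≤ k ∧ k ≤ q ∧ pos k = v := by
    intro v h1 h2
    refine walk_ivt pos p q hpq hw v ?_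
    omega
  obtain ⟨k, hk1, hk2, hk3⟩ := hvis J hJ2 (by omega)
  refine hE k hk1 hk2 ⟨hL k hk1 hk2, by rw [hk3, hJ]; exact Nat.mul_mod_right _ _, ?_⟩
  intro e he
  obtain ⟨k', h1, h2, h3⟩ := hvis (J + e) (by omega) (by omega)
  refine ⟨k', by omega, ?_, by rw [h3, hk3]⟩
  intro j hj1 hj2
  exact hL j (by omega) (by omega)

lemma event_transfer (t m : ℕ) (pos pos' : ℕ → ℕ) (L L' : ℕ → Prop)
    (hLL : ∀ k, k < t → (L k ↔ L' k))
    (hstep : ∀ j, j + 1 < t → ¬ L j → ¬ L (j + 1) → Step (pos j) (pos (j + 1)))
    (hstep' : ∀ j, j + 1 < t → ¬ L' j → ¬ L' (j + 1) → Step (pos' j) (pos' (j + 1)))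
    (h3 : ∀ k, k < t → ¬ L k → pos k % 3 = pos' k % 3)
    (hm : ∀ k, k < t → ¬ L k → (pos k % m = 0 ↔ pos' k % m = 0))
    (k : ℕ) (hk : k < t) (hE : Event t m pos L k) :
    Event t m pos' L' k ∧ ∀ e, e < m → ∃ k', k' < t ∧ ¬ L k' ∧ pos k' = pos k + e ∧
      pos' k' = pos' k + e := by
  have key : ∀ e, e < m → ∃ k', k' < t ∧ (∀ j, min k k' ≤ j → j ≤ max k k' → ¬ L j) ∧
      pos k' = pos k + e ∧ pos' k' = pos' k + e := by
    intro e he
    obtain ⟨k', h1, h2, h4⟩ := hE.2.2 e he
    refine ⟨k', h1, h2, h4, ?_⟩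
    rcases le_total k k' with hkk | hkk
    · have := walk_shift pos pos' k k' hkk
        (fun j a b => hstep j (by omega) (h2 j (by omega) (by omega)) (h2 (j + 1) (by omega) (by omega)))
        (fun j a b => hstep' j (by omega) (fun c => h2 j (by omega) (by omega) ((hLL j (by omega)).2 c))
          (fun c => h2 (j + 1) (by omega) (by omega) ((hLL (j + 1) (by omega)).2 c)))
        (fun j a b => h3 j (by omega) (h2 j (by omega) (by omega)))
      omega
    · have := walk_shift pos pos' k' k hkk
        (fun j a b => hstep j (by omega) (h2 j (by omega) (by omega)) (h2 (j + 1) (by omega) (by omega)))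
        (fun j a b => hstep' j (by omega) (fun c => h2 j (by omega) (by omega) ((hLL j (by omega)).2 c))
          (fun c => h2 (j + 1) (by omega) (by omega) ((hLL (j + 1) (by omega)).2 c)))
        (fun j a b => h3 j (by omega) (h2 j (by omega) (by omega)))
      omega
  refine ⟨⟨fun c => hE.1 ((hLL k hk).2 c), (hm k hk hE.1).1 hE.2.1, ?_⟩, ?_⟩
  · intro e he
    obtain ⟨k', h1, h2, h4, h5⟩ := key e he
    exact ⟨k', h1, fun j a b c => h2 j a b ((hLL j (by omega)).2 c), h5⟩
  · intro e he
    obtain ⟨k', h1, h2, h4, h5⟩ := key e he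
    exact ⟨k', h1, h2 k' (by omega) (by omega), h4, h5⟩


/-! ### Systems of intervals with a unit track -/

/-- lower end; the elements are `Sum.inl v` (the interval `[a v, b v]`) and `Sum.inr j`
(the track element `[j, j]`) -/
def lo {V : Type} (a : V → ℕ) : V ⊕ ℕ → ℕ := Sum.elim a id

/-- upper end -/
def hi {V : Type} (b : V → ℕ) : V ⊕ ℕ → ℕ := Sum.elim b id

/-- distance at most `D` -/
def Near {V : Type} (D : ℕ) (a b : V → ℕ) (x y : V ⊕ ℕ) : Prop :=
  lo a y ≤ hi b x + D ∧ lo a x ≤ hi b y + D

/-- intervals of `S` and all track elements -/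
def dom {V : Type} (S : Finset V) : V ⊕ ℕ → Prop := Sum.elim (fun v => v ∈ S) (fun _ => True)

lemma torso {V C₂ E₂ K : Type} (SL : Finset V) (D m : ℕ) (hm : 0 < m) (hD : 4 * m ≤ D)
    (α β : V ⊕ ℕ → ℕ) (domT : V ⊕ ℕ → Prop)
    (hαβ : ∀ x, domT x → α x ≤ β x)
    (hL : ∀ x, domT x → α x < β x → ∃ v, v ∈ SL ∧ x = Sum.inl v)
    (f₂ : V → C₂) (g₂ : ℕ → E₂)
    (hs : Strong (dom SL) (Near D (fun v => α (Sum.inl v)) (fun v => β (Sum.inl v)))
      (Sum.map f₂ g₂))
    (bit : ℕ → Bool)
    (hbit : ∀ i i', i % m = 0 → i' % m = 0 → (∀ e, e < m → bit (i + e) = bit (i' + e)) →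
      g₂ i = g₂ i')
    (c : V ⊕ ℕ → K)
    (h1 : ∀ x y, domT x → domT y → c x = c y → (α x < β x ↔ α y < β y))
    (h2 : ∀ x y, domT x → domT y → c x = c y → α x < β x → Sum.map f₂ g₂ x = Sum.map f₂ g₂ y)
    (h3 : ∀ x y, domT x → domT y → c x = c y → ¬ α x < β x →
      α x % 3 = α y % 3 ∧ wd (α x) = wd (α y) ∧ (α x % m = 0 ↔ α y % m = 0) ∧
        bit (α x) = bit (α y))
    (h4 : ∀ x y, domT x → domT y → c x = c y → ¬ α x < β x → α x = α y → x = y) :
    Strong domT (fun x y => α y ≤ β x + 1 ∧ α x ≤ β y + 1) c := by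
  classical
  intro t x ht hdom hnear hcol
  set pos : ℕ → ℕ := fun k => α (x k) with hpos
  set L : ℕ → Prop := fun k => α (x k) < β (x k) with hLdef
  set pos' : ℕ → ℕ := fun k => pos (k + t) with hpos'
  set L' : ℕ → Prop := fun k => L (k + t) with hLdef'
  have hnL : ∀ k, k < 2 * t → ¬ L k → β (x k) = pos k := by
    intro k hk h
    have h5 := hαβ (x k) (hdom k hk)
    simp only [hLdef] at h
    simp only [hpos]
    omega
  have stepAll : ∀ j, j + 1 < 2 * t → ¬ L j → ¬ L (j + 1) → Step (pos j) (pos (j + 1)) := by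
    intro j hj h5 h6
    have h7 := hnear j hj
    have h8 := hnL j (by omega) h5
    have h9 := hnL (j + 1) hj h6
    simp only at h7
    rw [h8, h9] at h7
    exact h7
  have hstep : ∀ j, j + 1 < t → ¬ L j → ¬ L (j + 1) → Step (pos j) (pos (j + 1)) :=
    fun j hj => stepAll j (by omega)
  have hstep' : ∀ j, j + 1 < t → ¬ L' j → ¬ L' (j + 1) → Step (pos' j) (pos' (j + 1)) := by
    intro j hj h5 h6
    simp only [hLdef', hpos'] at h5 h6 ⊢
    rw [show j + 1 + t = j + t + 1 by ring] at h6 ⊢
    exact stepAll (j + t) (by omega) h5 h6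
  have hLL : ∀ k, k < t → (L k ↔ L' k) := fun k hk =>
    h1 _ _ (hdom k (by omega)) (hdom (k + t) (by omega)) (hcol k hk)
  have hS : ∀ k, k < t → ¬ L k → pos k % 3 = pos' k % 3 ∧ wd (pos k) = wd (pos' k) ∧
      (pos k % m = 0 ↔ pos' k % m = 0) ∧ bit (pos k) = bit (pos' k) := fun k hk h5 =>
    h3 _ _ (hdom k (by omega)) (hdom (k + t) (by omega)) (hcol k hk) h5
  have hev1 : ∀ k, k < t → Event t m pos L k →
      Event t m pos' L' k ∧ g₂ (pos k) = g₂ (pos' k) := by
    intro k hk hE
    obtain ⟨hE', h6⟩ := event_transfer t m pos pos' L L' hLL hstep hstep'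
      (fun k hk h => (hS k hk h).1) (fun k hk h => (hS k hk h).2.2.1) k hk hE
    refine ⟨hE', hbit _ _ hE.2.1 hE'.2.1 ?_⟩
    intro e he
    obtain ⟨k', a1, a2, a3, a4⟩ := h6 e he
    rw [← a3, ← a4]
    exact (hS k' a1 a2).2.2.2
  have hev2 : ∀ k, k < t → Event t m pos' L' k → Event t m pos L k := by
    intro k hk hE
    exact (event_transfer t m pos' pos L' L (fun k hk => (hLL k hk).symm) hstep' hstep
      (fun k hk h => ((hS k hk (fun c => h ((hLL k hk).1 c))).1).symm)
      (fun k hk h => ((hS k hk (fun c => h ((hLL k hk).1 c))).2.2.1).symm) k hk hE).1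
  set ev : ℕ → Prop := fun k => if k < t then Event t m pos L k else Event t m pos' L' (k - t)
    with hev
  set ret : ℕ → Prop := fun k => L k ∨ ev k with hret
  have hret1 : ∀ k, k < t → (ret k ↔ ret (k + t)) := by
    intro k hk
    simp only [hret, hev, hk, if_true, show ¬ (k + t < t) by omega, if_false,
      Nat.add_sub_cancel]
    constructor
    · rintro (h | h)
      · exact Or.inl ((hLL k hk).1 h)
      · exact Or.inr (hev1 k hk h).1
    · rintro (h | h)
      · exact Or.inl ((hLL k hk).2 h)
      · exact Or.inr (hev2 k hk h)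
  by_cases hne : ∃ k, k < t ∧ ret k
  · set z : ℕ → V ⊕ ℕ := fun k => if L k then x k else Sum.inr (pos k) with hz
    have hzlo : ∀ k, k < 2 * t → lo (fun v => α (Sum.inl v)) (z k) = α (x k) := by
      intro k hk
      by_cases h : L k
      · obtain ⟨v, hv, hxv⟩ := hL (x k) (hdom k hk) h
        simp only [hz, h, if_true, hxv, lo, Sum.elim_inl]
      · simp only [hz, h, if_false, lo, Sum.elim_inr, id, hpos]
    have hzhi : ∀ k, k < 2 * t → hi (fun v => β (Sum.inl v)) (z k) = β (x k) := by
      intro k hk
      by_cases h : L k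
      · obtain ⟨v, hv, hxv⟩ := hL (x k) (hdom k hk) h
        simp only [hz, h, if_true, hxv, hi, Sum.elim_inl]
      · simp only [hz, h, if_false, hi, Sum.elim_inr, id]
        exact (hnL k hk h).symm
    have hdomz : ∀ k, k < 2 * t → ret k → dom SL (z k) := by
      intro k hk hk2
      by_cases h : L k
      · obtain ⟨v, hv, hxv⟩ := hL (x k) (hdom k hk) h
        simp only [hz, h, if_true, hxv, dom, Sum.elim_inl]
        exact hv
      · simp only [hz, h, if_false, dom, Sum.elim_inr]
    have hnearz : ∀ k k', k < k' → k' < 2 * t → ret k → ret k' →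
        (∀ j, k < j → j < k' → ¬ ret j) →
        Near D (fun v => α (Sum.inl v)) (fun v => β (Sum.inl v)) (z k) (z k') := by
      intro k k' hkk hk' _ _ hno
      unfold Near
      rw [hzlo k (by omega), hzlo k' hk', hzhi k (by omega), hzhi k' hk']
      by_cases hadj : k' = k + 1
      · subst hadj
        have := hnear k hk'
        omega
      · have hnoL : ∀ j, k < j → j < k' → ¬ L j := fun j h5 h6 h7 => hno j h5 h6 (Or.inl h7)
        have hnoE : ∀ j, k < j → j < k' → ¬ ev j := fun j h5 h6 h7 => hno j h5 h6 (Or.inr h7)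
        have hb : pos (k' - 1) + 3 ≤ pos (k + 1) + 4 * m ∧
            pos (k + 1) + 3 ≤ pos (k' - 1) + 4 * m := by
          rcases Nat.lt_or_ge (k' - 1) t with hq | hq
          · have := stretch t m hm pos L hstep (k + 1) (k' - 1) (by omega) hq
              (fun j h5 h6 => hnoL j (by omega) (by omega))
              (fun j h5 h6 h7 => hnoE j (by omega) (by omega) (by
                simp only [hev, show j < t by omega, if_true]; exact h7))
            omega
          · rcases Nat.lt_or_ge (k + 1) t with hp | hp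
            · have s1 := stretch t m hm pos L hstep (k + 1) (t - 1) (by omega) (by omega)
                (fun j h5 h6 => hnoL j (by omega) (by omega))
                (fun j h5 h6 h7 => hnoE j (by omega) (by omega) (by
                  simp only [hev, show j < t by omega, if_true]; exact h7))
              have s2 := stretch t m hm pos' L' hstep' 0 (k' - 1 - t) (by omega) (by omega)
                (fun j h5 h6 => hnoL (j + t) (by omega) (by omega))
                (fun j h5 h6 h7 => hnoE (j + t) (by omega) (by omega) (by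
                  simp only [hev, show ¬ (j + t < t) by omega, if_false, Nat.add_sub_cancel]
                  exact h7))
              have s3 := stepAll (t - 1) (by omega) (hnoL (t - 1) (by omega) (by omega))
                (by rw [show t - 1 + 1 = t by omega]; exact hnoL t (by omega) (by omega))
              rw [show t - 1 + 1 = t by omega] at s3
              simp only [hpos', Nat.zero_add, show k' - 1 - t + t = k' - 1 by omega] at s2
              unfold Step at s3
              omega
            · have s2 := stretch t m hm pos' L' hstep' (k + 1 - t) (k' - 1 - t) (by omega)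
                (by omega)
                (fun j h5 h6 => hnoL (j + t) (by omega) (by omega))
                (fun j h5 h6 h7 => hnoE (j + t) (by omega) (by omega) (by
                  simp only [hev, show ¬ (j + t < t) by omega, if_false, Nat.add_sub_cancel]
                  exact h7))
              simp only [hpos', show k + 1 - t + t = k + 1 by omega,
                show k' - 1 - t + t = k' - 1 by omega] at s2
              omega
        have n1 := hnear k (by omega)
        have n2 := hnear (k' - 1) (by omega)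
        rw [show k' - 1 + 1 = k' by omega] at n2
        have e1 := hnL (k + 1) (by omega) (hnoL (k + 1) (by omega) (by omega))
        have e2 := hnL (k' - 1) (by omega) (hnoL (k' - 1) (by omega) (by omega))
        simp only [hpos] at hb e1 e2
        omega
    have hcz : ∀ k, k < t → ret k → Sum.map f₂ g₂ (z k) = Sum.map f₂ g₂ (z (k + t)) := by
      intro k hk hk2
      by_cases h : L k
      · have h' : L (k + t) := (hLL k hk).1 h
        simp only [hz, h, h', if_true]
        exact h2 _ _ (hdom k (by omega)) (hdom (k + t) (by omega)) (hcol k hk) h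
      · have h' : ¬ L (k + t) := fun c => h ((hLL k hk).2 c)
        simp only [hz, h, h', if_false, Sum.map_inr, Sum.inr.injEq]
        rcases hk2 with h5 | h5
        · exact absurd h5 h
        · simp only [hev, hk, if_true] at h5
          exact (hev1 k hk h5).2
    obtain ⟨k, hk, hk2, hk3⟩ := hs.extract t ret z hret1 hne hdomz hnearz hcz
    refine ⟨k, hk, ?_⟩
    by_cases h : L k
    · have h' : L (k + t) := (hLL k hk).1 h
      simpa only [hz, h, h', if_true] using hk3
    · have h' : ¬ L (k + t) := fun c => h ((hLL k hk).2 c)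
      simp only [hz, h, h', if_false, Sum.inr.injEq] at hk3
      exact h4 _ _ (hdom k (by omega)) (hdom (k + t) (by omega)) (hcol k hk) h hk3
  · have hall : ∀ k, k < 2 * t → ¬ L k := by
      intro k hk h
      rcases Nat.lt_or_ge k t with h5 | h5
      · exact hne ⟨k, h5, Or.inl h⟩
      · refine hne ⟨k - t, by omega, Or.inl ((hLL (k - t) (by omega)).2 ?_)⟩
        simp only [hLdef', show k - t + t = k by omega]
        exact h
    have h5 := walk_word t ht pos (fun k hk => stepAll k hk (hall k (by omega)) (hall _ hk))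
      (fun k hk => (hS k hk (hall k (by omega))).1)
      (fun k hk => (hS k hk (hall k (by omega))).2.1)
    refine ⟨0, ht, ?_⟩
    refine h4 _ _ (hdom 0 (by omega)) (hdom (0 + t) (by omega)) (hcol 0 ht) (hall 0 (by omega)) ?_
    simpa [hpos] using h5

/-- `Good D s N Q`: for every finite system of intervals with `a v < b v` such that every gap
`(j, j+1)` is crossed by at most `s` of them, the intervals can be coloured with `N` colours and
the unit track with `Q` further colours, strongly for the relation of being at distance at most `D`. -/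
def Good (D s N Q : ℕ) : Prop :=
  ∀ (V : Type) (S : Finset V) (a b : V → ℕ), (∀ v, v ∈ S → a v < b v) →
    (∀ (j : ℕ) (T : Finset V), T ⊆ S → (∀ v, v ∈ T → a v ≤ j ∧ j < b v) → T.card ≤ s) →
    ∃ (C E : Type) (_ : Fintype C) (_ : Fintype E) (f : V → C) (g : ℕ → E),
      Fintype.card C ≤ N ∧ Fintype.card E ≤ Q ∧ Strong (dom S) (Near D a b) (Sum.map f g)

theorem good_step {D m s s' N₁ Q₁ N₂ Q₂ : ℕ} (hss : s' < s) (hm : 0 < m) (hD : 4 * m ≤ D)
    (hQ : Q₂ ≤ 2 ^ m) (h1 : Good D (s - s' - 1) N₁ Q₁) (h2 : Good D s' N₂ Q₂) :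
    Good D s (N₁ + N₂ + 48 * ((D + 2) * s)) (Q₁ + 48 * (D + 1)) := by
  classical
  intro V S a b hab hcr
  obtain ⟨u, A, B, hA, hB, hu, hc1, hc2⟩ := exists_windows S a b D s'
  have uB : ∀ x, u (B x) ≤ x := fun x => (hB x (B x)).1 le_rfl
  have uB' : ∀ x, x < u (B x + 1) := by
    intro x
    by_contra h
    have := (hB x (B x + 1)).2 (by omega)
    omega
  have uA : ∀ x, x ≤ u (A x) + D := fun x => (hA x (A x)).1 le_rfl
  have uA' : ∀ x i, i < A x → u i + D < x := by
    intro x i h
    by_contra h'
    have := (hA x i).2 (by omega)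
    omega
  have AB1 : ∀ x, A x ≤ B x + 1 := fun x => (hA x _).2 (by have := uB' x; omega)
  have BA : ∀ x, B x ≤ A x := by
    intro x
    by_contra h
    have h3 := (hB x (A x + 1)).1 (by omega)
    have h4 := uA x
    have h5 := hu (A x)
    omega
  have Amono : ∀ x y, x ≤ y → A x ≤ A y := fun x y h => (hA x _).2 (h.trans (uA y))
  have Bmono : ∀ x y, x ≤ y → B x ≤ B y := fun x y h => (hB y _).2 ((uB x).trans h)
  set α : V ⊕ ℕ → ℕ := fun x => A (lo a x) with hα
  set β : V ⊕ ℕ → ℕ := fun x => B (hi b x) with hβ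
  have hnear1 : ∀ x y, Near D a b x y → α y ≤ β x + 1 ∧ α x ≤ β y + 1 := by
    intro x y h
    constructor
    · refine (hA _ _).2 ?_
      have h3 := uB' (hi b x)
      have h4 := h.1
      simp only [hβ]
      omega
    · refine (hA _ _).2 ?_
      have h3 := uB' (hi b y)
      have h4 := h.2
      simp only [hβ]
      omega
  have hlohi : ∀ x, dom S x → lo a x ≤ hi b x := by
    rintro (v | j) h
    · exact (hab v h).le
    · exact le_rfl
  have hαβ1 : ∀ x, dom S x → α x ≤ β x + 1 := fun x h =>
    (Amono _ _ (hlohi x h)).trans (AB1 _)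
  -- the remainder
  set SR : Finset V := S.filter (fun v => B (b v) < A (a v)) with hSR
  obtain ⟨C₁, E₁, iC1, iE1, f₁, g₁, hC1, hE1, hs1⟩ := h1 V SR a b
    (fun v hv => hab v (Finset.mem_filter.1 hv).1) (by
      intro j T hT hTj
      rcases T.eq_empty_or_nonempty with h0 | ⟨v0, hv0⟩
      · rw [h0]; simp
      have key : ∀ v, v ∈ T → u (B j) + D < a v ∧ b v < u (B j + 1) := by
        intro v hv
        have hv' := (Finset.mem_filter.1 (hT hv)).2
        have hj := hTj v hv
        have e1 := uA' _ _ hv'
        have e2 := uB' (b v)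
        have e3 : B j = B (b v) := by
          apply le_antisymm (Bmono _ _ hj.2.le)
          exact (hB j _).2 (by omega)
        rw [e3]
        exact ⟨e1, e2⟩
      have k0 := key v0 hv0
      have j0 := hTj v0 hv0
      have h3 := hc2 (B j) (j + 1) (by omega) (by omega)
      set W : Finset V := S.filter (fun v => a v ≤ u (B j) + D ∧ j + 1 ≤ b v) with hW
      have h4 : s' < W.card := h3
      have hdisj : Disjoint T W := by
        rw [Finset.disjoint_left]
        intro v hv hv'
        have := (Finset.mem_filter.1 hv').2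
        have := key v hv
        omega
      have h5 := hcr j (T ∪ W) (Finset.union_subset (hT.trans (Finset.filter_subset _ _))
        (Finset.filter_subset _ _)) (by
          intro v hv
          rcases Finset.mem_union.1 hv with hv | hv
          · exact hTj v hv
          · have := (Finset.mem_filter.1 hv).2
            omega)
      rw [Finset.card_union_of_disjoint hdisj] at h5
      omega)
  -- the long intervals
  set SL : Finset V := S.filter (fun v => A (a v) < B (b v)) with hSL
  obtain ⟨C₂, E₂, iC2, iE2, f₂, g₂, hC2, hE2, hs2⟩ := h2 V SL (fun v => A (a v)) (fun v => B (b v))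
    (fun v hv => (Finset.mem_filter.1 hv).2) (by
      intro i T hT hTi
      refine le_trans (Finset.card_le_card ?_) (hc1 i)
      intro v hv
      have hv' := Finset.mem_filter.1 (hT hv)
      have hi' := hTi v hv
      exact Finset.mem_filter.2 ⟨hv'.1, (hA _ _).1 hi'.1, (hB _ _).1 hi'.2⟩)
  -- the code
  obtain ⟨enc⟩ : Nonempty (E₂ ↪ (Fin m → Bool)) :=
    Function.Embedding.nonempty_of_card_le (by
      rw [Fintype.card_fun, Fintype.card_bool, Fintype.card_fin]
      exact hE2.trans hQ)
  set bit : ℕ → Bool := fun i => enc (g₂ (i / m * m)) ⟨i % m, Nat.mod_lt _ hm⟩ with hbit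
  have hbit' : ∀ i i', i % m = 0 → i' % m = 0 → (∀ e, e < m → bit (i + e) = bit (i' + e)) →
      g₂ i = g₂ i' := by
    intro i i' hi hi' he
    apply enc.injective
    funext ⟨e, hem⟩
    have h3 := he e hem
    have q : ∀ i, i % m = 0 → (i + e) / m * m = i ∧ (i + e) % m = e := by
      intro i hi
      obtain ⟨q, rfl⟩ := Nat.dvd_of_mod_eq_zero hi
      constructor
      · rw [Nat.mul_add_div hm, Nat.div_eq_of_lt hem, Nat.add_zero, Nat.mul_comm]
      · rw [Nat.mul_add_mod, Nat.mod_eq_of_lt hem]
    simp only [hbit, (q i hi).1, (q i hi).2, (q i' hi').1, (q i' hi').2] at h3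
    exact h3
  -- the slots
  have hslot : ∀ i, ∃ e : V → Fin ((D + 2) * s),
      ∀ v ∈ S.filter (fun v => A (a v) = i ∧ B (b v) = i),
      ∀ w ∈ S.filter (fun v => A (a v) = i ∧ B (b v) = i), e v = e w → v = w := by
    intro i
    refine exists_slot _ _ (Nat.mul_pos (by omega) (by omega)) ?_
    have hsub : S.filter (fun v => A (a v) = i ∧ B (b v) = i) ⊆
        (Finset.Icc (u i - 1) (u i + D)).biUnion
          (fun j => S.filter (fun v => a v ≤ j ∧ j < b v)) := by
      intro v hv
      obtain ⟨hv1, hv2, hv3⟩ := Finset.mem_filter.1 hv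
      have e1 := uA (a v)
      have e2 := uB (b v)
      rw [hv2] at e1
      rw [hv3] at e2
      have e3 := hab v hv1
      refine Finset.mem_biUnion.2 ⟨max (a v) (u i - 1), Finset.mem_Icc.2 ⟨by omega, by omega⟩,
        Finset.mem_filter.2 ⟨hv1, by omega, by omega⟩⟩
    refine (Finset.card_le_card hsub).trans ?_
    refine (Finset.card_biUnion_le_card_mul _ _ s ?_).trans ?_
    · intro j _
      exact hcr j _ (Finset.filter_subset _ _) (fun v hv => (Finset.mem_filter.1 hv).2)
    · rw [Nat.card_Icc]
      exact Nat.mul_le_mul_right _ (by omega)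
  choose sl hsl using hslot
  -- the letters
  let letter : ℕ → Fin 3 × (Bool × Bool) × Bool × Bool := fun i =>
    (⟨i % 3, Nat.mod_lt _ (by norm_num)⟩, wd i, decide (i % m = 0), bit i)
  have hletter : ∀ i i', letter i = letter i' →
      i % 3 = i' % 3 ∧ wd i = wd i' ∧ (i % m = 0 ↔ i' % m = 0) ∧ bit i = bit i' := by
    intro i i' h
    simp only [letter, Prod.mk.injEq, Fin.mk.injEq, decide_eq_decide] at h
    exact ⟨h.1, h.2.1, h.2.2.1, h.2.2.2⟩
  let f : V → C₁ ⊕ C₂ ⊕ (Fin ((D + 2) * s) × (Fin 3 × (Bool × Bool) × Bool × Bool)) := fun v =>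
    if B (b v) < A (a v) then Sum.inl (f₁ v)
    else if A (a v) < B (b v) then Sum.inr (Sum.inl (f₂ v))
    else Sum.inr (Sum.inr (sl (A (a v)) v, letter (A (a v))))
  let g : ℕ → E₁ ⊕ (Fin (D + 1) × (Fin 3 × (Bool × Bool) × Bool × Bool)) := fun j =>
    if B j < A j then Sum.inl (g₁ j)
    else Sum.inr (⟨(j - u (A j)) % (D + 1), Nat.mod_lt _ (by omega)⟩, letter (A j))
  have F : ∀ v w, f v = f w →
      ((B (b v) < A (a v) ↔ B (b w) < A (a w)) ∧ (A (a v) < B (b v) ↔ A (a w) < B (b w)) ∧
      (B (b v) < A (a v) → f₁ v = f₁ w) ∧ (A (a v) < B (b v) → f₂ v = f₂ w) ∧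
      (A (a v) = B (b v) → sl (A (a v)) v = sl (A (a w)) w ∧
        letter (A (a v)) = letter (A (a w)))) := by
    intro v w h
    simp only [f] at h
    split_ifs at h with a1 a2 a3 a4 a5 a6 a7 <;>
      simp only [Sum.inl.injEq, Sum.inr.injEq, Prod.mk.injEq, reduceCtorEq] at h
    · exact ⟨by omega, by omega, fun _ => h, by omega, by omega⟩
    · exact ⟨by omega, by omega, by omega, fun _ => h, by omega⟩
    · exact ⟨by omega, by omega, by omega, by omega, fun _ => ⟨h.1, by simpa only [Prod.mk.injEq] using h.2⟩⟩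
  have G : ∀ j j', g j = g j' →
      ((B j < A j ↔ B j' < A j') ∧ (B j < A j → g₁ j = g₁ j') ∧
      (A j = B j → (j - u (A j)) % (D + 1) = (j' - u (A j')) % (D + 1) ∧
        letter (A j) = letter (A j'))) := by
    intro j j' h
    simp only [g] at h
    split_ifs at h with a1 a2 a3 <;>
      simp only [Sum.inl.injEq, Sum.inr.injEq, Prod.mk.injEq, Fin.mk.injEq] at h
    · exact ⟨by omega, fun _ => h, by omega⟩
    · exact ⟨by omega, by omega, fun _ => ⟨h.1, by simpa only [Prod.mk.injEq] using h.2⟩⟩
  refine ⟨_, _, inferInstance, inferInstance, f, g, ?_, ?_, ?_⟩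
  · simp only [Fintype.card_sum, Fintype.card_prod, Fintype.card_fin, Fintype.card_bool]
    omega
  · simp only [Fintype.card_sum, Fintype.card_prod, Fintype.card_fin, Fintype.card_bool]
    omega
  -- properties of the total colouring
  have P1 : ∀ x y, dom S x → dom S y → Sum.map f g x = Sum.map f g y →
      (β x < α x ↔ β y < α y) := by
    rintro (v | j) (w | j') _ _ h
    · exact (F v w (Sum.inl.inj h)).1
    · simp at h
    · simp at h
    · exact (G j j' (Sum.inr.inj h)).1
  have P2 : ∀ x y, dom S x → dom S y → Sum.map f g x = Sum.map f g y →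
      (α x < β x ↔ α y < β y) := by
    rintro (v | j) (w | j') _ _ h
    · exact (F v w (Sum.inl.inj h)).2.1
    · simp at h
    · simp at h
    · have h3 := BA j
      have h4 := BA j'
      simp only [hα, hβ, lo, hi, Sum.elim_inr, id]
      omega
  have P3 : ∀ x y, dom S x → dom S y → Sum.map f g x = Sum.map f g y → β x < α x →
      Sum.map f₁ g₁ x = Sum.map f₁ g₁ y := by
    rintro (v | j) (w | j') _ _ h h'
    · exact congrArg Sum.inl ((F v w (Sum.inl.inj h)).2.2.1 h')
    · simp at h
    · simp at h
    · exact congrArg Sum.inr ((G j j' (Sum.inr.inj h)).2.1 h')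
  have P4 : ∀ x y, dom S x → dom S y → Sum.map f g x = Sum.map f g y → α x < β x →
      Sum.map f₂ g₂ x = Sum.map f₂ g₂ y := by
    rintro (v | j) (w | j') _ _ h h'
    · exact congrArg Sum.inl ((F v w (Sum.inl.inj h)).2.2.2.1 h')
    · simp at h
    · simp at h
    · exfalso
      have h3 := BA j
      simp only [hα, hβ, lo, hi, Sum.elim_inr, id] at h'
      omega
  have P5 : ∀ x y, dom S x → dom S y → Sum.map f g x = Sum.map f g y → α x = β x →
      letter (α x) = letter (α y) := by
    rintro (v | j) (w | j') _ _ h h'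
    · exact ((F v w (Sum.inl.inj h)).2.2.2.2 h').2
    · simp at h
    · simp at h
    · exact ((G j j' (Sum.inr.inj h)).2.2 h').2
  have P6 : ∀ x y, dom S x → dom S y → Sum.map f g x = Sum.map f g y → α x = β x → α y = β y →
      α x = α y → x = y := by
    rintro (v | j) (w | j') hx hy h h' h'' he
    · have h3 := ((F v w (Sum.inl.inj h)).2.2.2.2 h').1
      simp only [hα, hβ, lo, hi, Sum.elim_inl] at h' h'' he
      rw [← he] at h3
      exact congrArg Sum.inl (hsl _ v (Finset.mem_filter.2 ⟨hx, rfl, h'.symm⟩) w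
        (Finset.mem_filter.2 ⟨hy, he.symm, by rw [← h'', he]⟩) h3)
    · simp at h
    · simp at h
    · have h3 := ((G j j' (Sum.inr.inj h)).2.2 h').1
      simp only [hα, hβ, lo, hi, Sum.elim_inr, id] at h' h'' he
      rw [← he] at h3
      have e1 := uB j
      have e2 := uB j'
      have e3 := uA j
      have e4 := uA j'
      rw [← h'] at e1
      rw [← h'', ← he] at e2
      rw [← he] at e4
      rw [Nat.mod_eq_of_lt (by omega), Nat.mod_eq_of_lt (by omega)] at h3
      have : j = j' := by omega
      rw [this]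
  have hT : Strong (fun x => dom S x ∧ α x ≤ β x) (fun x y => α y ≤ β x + 1 ∧ α x ≤ β y + 1)
      (Sum.map f g) := by
    refine torso SL D m hm hD α β _ (fun x hx => hx.2) ?_ f₂ g₂ hs2 bit hbit' (Sum.map f g)
      (fun x y hx hy h => P2 x y hx.1 hy.1 h) (fun x y hx hy h h' => P4 x y hx.1 hy.1 h h') ?_ ?_
    · rintro (v | j) hx h
      · exact ⟨v, Finset.mem_filter.2 ⟨hx.1, h⟩, rfl⟩
      · exfalso
        have h3 := BA j
        simp only [hα, hβ, lo, hi, Sum.elim_inr, id] at h
        omega
    · intro x y hx hy h h'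
      exact hletter _ _ (P5 x y hx.1 hy.1 h (by have := hx.2; omega))
    · intro x y hx hy h h' he
      refine P6 x y hx.1 hy.1 h (by have := hx.2; omega) ?_ he
      have h3 := P2 x y hx.1 hy.1 h
      have := hy.2
      have := hx.2
      omega
  intro t x ht hdom hnear hcol
  by_cases hall : ∀ k, k < 2 * t → β (x k) < α (x k)
  · refine hs1 t x ht ?_ hnear ?_
    · intro k hk
      have h3 := hdom k hk
      have h4 := hall k hk
      rcases hxk : x k with v | j
      · rw [hxk] at h3 h4
        exact Finset.mem_filter.2 ⟨h3, h4⟩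
      · trivial
    · intro k hk
      exact P3 _ _ (hdom k (by omega)) (hdom (k + t) (by omega)) (hcol k hk) (hall k (by omega))
  · push Not at hall
    obtain ⟨k0, hk0, hk0'⟩ := hall
    have hiff : ∀ k, k < t → (α (x k) ≤ β (x k) ↔ α (x (k + t)) ≤ β (x (k + t))) := by
      intro k hk
      have := P1 _ _ (hdom k (by omega)) (hdom (k + t) (by omega)) (hcol k hk)
      omega
    have hne : ∃ k, k < t ∧ α (x k) ≤ β (x k) := by
      rcases Nat.lt_or_ge k0 t with h | h
      · exact ⟨k0, h, hk0'⟩
      · refine ⟨k0 - t, by omega, (hiff (k0 - t) (by omega)).2 ?_⟩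
        rw [show k0 - t + t = k0 by omega]
        exact hk0'
    obtain ⟨k, hk, _, hk3⟩ := hT.extract t (fun k => α (x k) ≤ β (x k)) x hiff hne
      (fun k hk h => ⟨hdom k hk, h⟩) (by
        intro k k' hkk hk' h3 h4 hno
        simp only [not_le] at hno
        by_cases hadj : k' = k + 1
        · subst hadj
          exact hnear1 _ _ (hnear k hk')
        · have hc : ∀ j, k + 1 ≤ j → j < k' → α (x j) = α (x (k + 1)) := by
            intro j hj
            induction j, hj using Nat.le_induction with
            | base => intro _; rfl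
            | succ j hj ih =>
              intro hjk
              have e1 := ih (by omega)
              have e2 := hno j (by omega) (by omega)
              have e3 := hno (j + 1) (by omega) (by omega)
              have e4 := hαβ1 _ (hdom j (by omega))
              have e5 := hαβ1 _ (hdom (j + 1) (by omega))
              have e6 := hnear1 _ _ (hnear j (by omega))
              omega
          have e1 := hc (k' - 1) (by omega) (by omega)
          have e2 := hno (k + 1) (by omega) (by omega)
          have e3 := hno (k' - 1) (by omega) (by omega)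
          have e6 := hnear1 _ _ (hnear k (by omega))
          have e7 := hnear1 _ _ (hnear (k' - 1) (by omega))
          rw [show k' - 1 + 1 = k' by omega] at e7
          omega) (fun k hk _ => hcol k hk)
    exact ⟨k, hk, hk3⟩

theorem good_zero (D : ℕ) : Good D 0 1 (12 * (D + 1)) := by
  intro V S a b hab hcr
  have hS : ∀ v, v ∉ S := by
    intro v hv
    have := hcr (a v) {v} (Finset.singleton_subset_iff.2 hv) (by
      intro w hw
      rw [Finset.mem_singleton] at hw
      subst hw
      exact ⟨le_rfl, hab w hv⟩)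
    simp at this
  refine ⟨Unit, Fin (D + 1) × Fin 3 × (Bool × Bool), inferInstance, inferInstance, fun _ => (),
    fun j => (⟨j % (D + 1), Nat.mod_lt _ (by omega)⟩,
      ⟨j / (D + 1) % 3, Nat.mod_lt _ (by norm_num)⟩, wd (j / (D + 1))), by simp, ?_, ?_⟩
  · simp only [Fintype.card_prod, Fintype.card_fin, Fintype.card_bool]
    omega
  · intro t x ht hdom hnear hcol
    have hx : ∀ k, k < 2 * t → ∃ j, x k = Sum.inr j := by
      intro k hk
      have h1 := hdom k hk
      rcases hxk : x k with v | j
      · rw [hxk] at h1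
        exact absurd h1 (hS v)
      · exact ⟨j, rfl⟩
    let y : ℕ → ℕ := fun k => Sum.elim (fun _ => 0) id (x k)
    have hy : ∀ k, k < 2 * t → x k = Sum.inr (y k) := by
      intro k hk
      obtain ⟨j, hj⟩ := hx k hk
      simp only [y, hj, Sum.elim_inr, id]
    have hcol' : ∀ k, k < t → y k % (D + 1) = y (k + t) % (D + 1) ∧
        y k / (D + 1) % 3 = y (k + t) / (D + 1) % 3 ∧
        wd (y k / (D + 1)) = wd (y (k + t) / (D + 1)) := by
      intro k hk
      have h1 := hcol k hk
      rw [hy k (by omega), hy (k + t) (by omega)] at h1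
      simpa only [Sum.map_inr, Sum.inr.injEq, Prod.mk.injEq, Fin.mk.injEq] using h1
    have h1 := walk_word t ht (fun k => y k / (D + 1)) (by
      intro k hk
      have h2 := hnear k hk
      rw [hy k (by omega), hy (k + 1) hk] at h2
      unfold Near lo hi at h2
      simp only [Sum.elim_inr, id] at h2
      unfold Step
      constructor
      · rw [← Nat.add_div_right _ (by omega : 0 < D + 1)]
        exact Nat.div_le_div_right (by omega)
      · rw [← Nat.add_div_right _ (by omega : 0 < D + 1)]
        exact Nat.div_le_div_right (by omega)) (fun k hk => (hcol' k hk).2.1)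
      (fun k hk => (hcol' k hk).2.2)
    refine ⟨0, ht, ?_⟩
    have h2 := (hcol' 0 ht).1
    simp only [Nat.zero_add] at h2 ⊢
    rw [hy 0 (by omega), hy t (by omega)]
    have h3 := Nat.div_add_mod (y 0) (D + 1)
    have h4 := Nat.div_add_mod (y t) (D + 1)
    rw [h1, h2] at h3
    rw [← h3, h4]

lemma Good.mono {D s N Q N' Q' : ℕ} (h : Good D s N Q) (hN : N ≤ N') (hQ : Q ≤ Q') :
    Good D s N' Q' := by
  intro V S a b hab hcr
  obtain ⟨C, E, iC, iE, f, g, h1, h2, h3⟩ := h V S a b hab hcr
  exact ⟨C, E, iC, iE, f, g, h1.trans hN, h2.trans hQ, h3⟩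

/-- Solution of the recursion. -/
theorem good_all (D m : ℕ) (hm : 0 < m) (hD : 4 * m ≤ D) : ∀ s,
    48 * (D + 1) * (Nat.log 2 s + 2) ≤ 2 ^ m →
    Good D s (48 * (D + 2) * (s * (Nat.log 2 s + 1)) + (s + 1))
      (48 * (D + 1) * (Nat.log 2 s + 2)) := by
  intro s
  induction s using Nat.strong_induction_on with
  | _ s ih =>
    intro hs
    rcases Nat.eq_zero_or_pos s with h0 | h0
    · subst h0
      refine (good_zero D).mono (by omega) ?_
      simp only [Nat.log_zero_right]
      omega
    rcases Nat.lt_or_ge s 2 with h1 | h1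
    · have hs1 : s = 1 := by omega
      subst hs1
      have g3 := good_step (s := 1) (s' := 0) (by norm_num) hm hD (by
        refine le_trans ?_ hs
        simp only [Nat.log_one_right]
        omega) (good_zero D) (good_zero D)
      refine g3.mono ?_ ?_
      · simp only [Nat.log_one_right]
        omega
      · simp only [Nat.log_one_right]
        omega
    · set h := s / 2 with hh
      have hr : s - h - 1 ≤ h := by omega
      have hlt : h < s := by omega
      set r := s - h - 1 with hrdef
      have hlogr : Nat.log 2 r ≤ Nat.log 2 h := Nat.log_mono_right hr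
      have hlogh : Nat.log 2 h ≤ Nat.log 2 s := Nat.log_mono_right hlt.le
      have hlog1 : Nat.log 2 s = Nat.log 2 h + 1 := by
        rw [Nat.log_of_one_lt_of_le (by norm_num) h1]
      have b1 : 48 * (D + 1) * (Nat.log 2 r + 2) ≤ 2 ^ m :=
        (Nat.mul_le_mul_left _ (by omega)).trans hs
      have b2 : 48 * (D + 1) * (Nat.log 2 h + 2) ≤ 2 ^ m :=
        (Nat.mul_le_mul_left _ (by omega)).trans hs
      have g1 := ih r (by omega) b1
      have g2 := ih h hlt b2
      have g3 := good_step (s' := h) hlt hm hD b2 g1 g2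
      refine g3.mono ?_ ?_
      · rw [hlog1]
        have e1 : r * (Nat.log 2 r + 1) ≤ r * (Nat.log 2 h + 1) := Nat.mul_le_mul_left _ (by omega)
        have e2 : r + h + 1 = s := by omega
        have e3 : 48 * (D + 2) * (r * (Nat.log 2 r + 1)) ≤
            48 * (D + 2) * (r * (Nat.log 2 h + 1)) := Nat.mul_le_mul_left _ e1
        have e4 : 48 * (D + 2) * (s * (Nat.log 2 h + 1 + 1)) =
            48 * (D + 2) * (r * (Nat.log 2 h + 1)) + 48 * (D + 2) * (h * (Nat.log 2 h + 1)) +
            48 * (D + 2) * (Nat.log 2 h + 1) + 48 * ((D + 2) * s) := by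
          rw [← e2]; ring
        rw [e4]
        have e5 : 1 ≤ 48 * (D + 2) * (Nat.log 2 h + 1) := by
          have : 0 < 48 * (D + 2) * (Nat.log 2 h + 1) := by positivity
          omega
        omega
      · rw [hlog1]
        have e1 : 48 * (D + 1) * (Nat.log 2 r + 2) ≤ 48 * (D + 1) * (Nat.log 2 h + 2) :=
          Nat.mul_le_mul_left _ (by omega)
        have e4 : 48 * (D + 1) * (Nat.log 2 h + 1 + 2) =
            48 * (D + 1) * (Nat.log 2 h + 2) + 48 * (D + 1) := by ring
        rw [e4]
        omega

lemma numeric (L l : ℕ) (hl : l = Nat.log 2 (L + 2)) :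
    48 * (4 * (2 * l + 20) + 1) * (L + 2) ≤ 2 ^ (2 * l + 20) := by
  have h1 : 1 ≤ l := by
    rw [hl]
    exact Nat.log_pos (by norm_num) (by omega)
  have h2 : L + 2 < 2 ^ (l + 1) := by
    rw [hl]
    exact Nat.lt_pow_succ_log_self (by norm_num) _
  have h3 : l < 2 ^ l := Nat.lt_two_pow_self
  have h4 : 4 * (2 * l + 20) + 1 ≤ 89 * 2 ^ l := by omega
  calc 48 * (4 * (2 * l + 20) + 1) * (L + 2) ≤ 48 * (89 * 2 ^ l) * 2 ^ (l + 1) :=
        Nat.mul_le_mul (Nat.mul_le_mul_left _ h4) h2.le
    _ = 8544 * (2 ^ l * 2 ^ l) := by ring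
    _ ≤ 2 ^ 20 * (2 ^ l * 2 ^ l) := Nat.mul_le_mul_right _ (by norm_num)
    _ = 2 ^ (2 * l + 20) := by
        rw [← pow_add, ← pow_add]
        congr 1
        ring

/-- **Result.** There is a constant `C` such that every finite graph with a path decomposition of
width at most `θ` has a nonrepetitive vertex colouring with
`C (θ+1) (log₂(θ+1) + 1) log₂(log₂(θ+1) + 2)` colours. -/
theorem result :
    ∃ C : ℕ, ∀ (V : Type) [Fintype V] (G : SimpleGraph V) (θ : ℕ) (B : ℕ → Finset V),
      (∀ i, (B i).card ≤ θ + 1) →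
      (∀ v, ∃ i, v ∈ B i) →
      (∀ u v, G.Adj u v → ∃ i, u ∈ B i ∧ v ∈ B i) →
      (∀ v i j k, i ≤ j → j ≤ k → v ∈ B i → v ∈ B k → v ∈ B j) →
      ∃ c : V → Fin (C * (θ + 1) * (Nat.log 2 (θ + 1) + 1) *
          Nat.log 2 (Nat.log 2 (θ + 1) + 2)),
        ∀ (k : ℕ) (p : ℕ → V), 1 ≤ k →
          (∀ i j, i < 2 * k → j < 2 * k → p i = p j → i = j) →
          (∀ i, i + 1 < 2 * k → G.Adj (p i) (p (i + 1))) →
          ∃ i, i < k ∧ c (p i) ≠ c (p (i + k)) := by
  classical
  refine ⟨4400, ?_⟩
  intro V _ G θ B hB1 hB2 hB3 hB4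
  -- a bound for the relevant bags
  obtain ⟨M, hM1, hM2⟩ : ∃ M, (∀ v, ∃ i, i ≤ M ∧ v ∈ B i) ∧
      (∀ u v, G.Adj u v → ∃ i, i ≤ M ∧ u ∈ B i ∧ v ∈ B i) := by
    choose w hw using hB2
    have h3 : ∀ q : V × V, ∃ i, G.Adj q.1 q.2 → q.1 ∈ B i ∧ q.2 ∈ B i := by
      intro q
      by_cases h : G.Adj q.1 q.2
      · obtain ⟨i, hi⟩ := hB3 _ _ h
        exact ⟨i, fun _ => hi⟩
      · exact ⟨0, fun h' => absurd h' h⟩
    choose e he using h3
    refine ⟨Finset.univ.sup w + Finset.univ.sup e, ?_, ?_⟩
    · intro v
      exact ⟨w v, (Finset.le_sup (Finset.mem_univ v)).trans (Nat.le_add_right _ _), hw v⟩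
    · intro u v h
      exact ⟨e (u, v), (Finset.le_sup (Finset.mem_univ (u, v))).trans (Nat.le_add_left _ _),
        he (u, v) h⟩
  let l : V → ℕ := fun v => Nat.find (hB2 v)
  let r : V → ℕ := fun v => Nat.findGreatest (fun i => v ∈ B i) M
  have hl : ∀ v i, v ∈ B i → l v ≤ i := fun v i h => Nat.find_min' _ h
  have hr : ∀ v i, i ≤ M → v ∈ B i → i ≤ r v := fun v i h1 h2 => Nat.le_findGreatest h1 h2
  have hlr : ∀ v i, l v ≤ i → i ≤ r v → v ∈ B i := by
    intro v i h1 h2
    obtain ⟨j, hj1, hj2⟩ := hM1 v
    have h3 : v ∈ B (r v) := Nat.findGreatest_spec (P := fun i => v ∈ B i) hj1 hj2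
    exact hB4 v (l v) i (r v) h1 h2 (Nat.find_spec (hB2 v)) h3
  have hlr' : ∀ v, l v ≤ r v := by
    intro v
    obtain ⟨j, hj1, hj2⟩ := hM1 v
    exact (hl v j hj2).trans (hr v j hj1 hj2)
  set L := Nat.log 2 (θ + 1) with hL
  set q := Nat.log 2 (L + 2) with hq
  have hq1 : 1 ≤ q := by
    rw [hq]
    exact Nat.log_pos (by norm_num) (by omega)
  obtain ⟨K, E, iK, iE, f, g, h1, h2, h3⟩ := good_all (4 * (2 * q + 20)) (2 * q + 20) (by omega)
    le_rfl (θ + 1) (numeric L q hq) V Finset.univ (fun v => 2 * l v) (fun v => 2 * r v + 1)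
    (by
      intro v _
      have := hlr' v
      show 2 * l v < 2 * r v + 1
      omega) (by
      intro j T _ hT
      refine (Finset.card_le_card ?_).trans (hB1 (j / 2))
      intro v hv
      have := hT v hv
      exact hlr v _ (by omega) (by omega))
  rw [← hL] at h1
  have hcard : Fintype.card K ≤ 4400 * (θ + 1) * (L + 1) * q := by
    refine h1.trans ?_
    have e1 : 4 * (2 * q + 20) + 2 ≤ 90 * q := by omega
    have e2 : 48 * (4 * (2 * q + 20) + 2) * ((θ + 1) * (L + 1)) ≤
        48 * (90 * q) * ((θ + 1) * (L + 1)) :=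
      Nat.mul_le_mul_right _ (Nat.mul_le_mul_left _ e1)
    have e3 : (θ + 1) * 1 * 1 ≤ (θ + 1) * (L + 1) * q :=
      Nat.mul_le_mul (Nat.mul_le_mul_left _ (by omega)) hq1
    have e4 : 4400 * (θ + 1) * (L + 1) * q = 48 * (90 * q) * ((θ + 1) * (L + 1)) +
        80 * ((θ + 1) * (L + 1) * q) := by ring
    rw [e4]
    omega
  let emb : K → Fin (4400 * (θ + 1) * (L + 1) * q) := fun x =>
    Fin.castLE hcard (Fintype.equivFin K x)
  have hemb : Function.Injective emb :=
    (Fin.castLE_injective hcard).comp (Fintype.equivFin K).injective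
  refine ⟨fun v => emb (f v), ?_⟩
  intro k p hk hinj hadj
  by_contra hcon
  push Not at hcon
  obtain ⟨i, hik, hik'⟩ := h3 k (fun i => Sum.inl (p i)) (by omega)
    (fun i _ => Finset.mem_univ _) (by
      intro i hik
      obtain ⟨j, hj, hj1, hj2⟩ := hM2 _ _ (hadj i hik)
      have a1 := hl _ _ hj1
      have a2 := hl _ _ hj2
      have a3 := hr _ _ hj hj1
      have a4 := hr _ _ hj hj2
      unfold Near lo hi
      simp only [Sum.elim_inl]
      omega) (by
      intro i hik
      have := hemb (hcon i hik)
      simp only [Sum.map_inl, this])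
  have := hinj i (i + k) (by omega) (by omega) (Sum.inl.inj hik')
  omega

end Pool.Agent.Results.MP_fbd18f_co.NearLinear
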